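import Mathlib
import Pool.Agent.H26.BG4

set_option autoImplicit false

open MeasureTheory Filter Topology
open scoped ComplexConjugate ENNReal NNReal

namespace Pool.Agent.Results.MP_5b3867_an.TwoWeight

/-- The normalised area measure `dA` on the open unit disc (as a measure on `ℂ` carried by the disc). -/
noncomputable def dA : Measure ℂ :=
  (ENNReal.ofReal Real.pi⁻¹) • (volume.restrict (Metric.ball (0 : ℂ) 1))

/-- The Bergman projection `P_B f(z) = ∫ f(ζ) / (1 - z \bar ζ)^2 dA(ζ)`. -/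
noncomputable def bergman (f : ℂ → ℂ) (z : ℂ) : ℂ :=
  ∫ ζ, f ζ / (1 - z * conj ζ) ^ 2 ∂dA

/-- The maximal Bergman projection `P_B^+ f(z) = ∫ f(ζ) / |1 - z \bar ζ|^2 dA(ζ)`. -/
noncomputable def maximalBergman (f : ℂ → ℂ) (z : ℂ) : ℂ :=
  ∫ ζ, f ζ / ((‖1 - z * conj ζ‖ ^ 2 : ℝ) : ℂ) ∂dA

/-- A weight: positive and locally integrable on the open unit disc. -/
def IsWeight (u : ℂ → ℝ) : Prop :=
  (∀ z ∈ Metric.ball (0 : ℂ) 1, 0 < u z) ∧ LocallyIntegrableOn u (Metric.ball (0 : ℂ) 1) volume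

/-- The norm of `L^2(𝔻, u)`, the `L^2` space of the measure `u dA`. -/
noncomputable def normL2 (u : ℂ → ℝ) (f : ℂ → ℂ) : ℝ≥0∞ :=
  (∫⁻ z, ‖f z‖ₑ ^ 2 * ENNReal.ofReal (u z) ∂dA) ^ ((1 : ℝ) / 2)

/-- Bounded measurable functions with compact support contained in the open unit disc. -/
def IsTest (f : ℂ → ℂ) : Prop :=
  Measurable f ∧ (∃ M : ℝ, ∀ z, ‖f z‖ ≤ M) ∧ HasCompactSupport f ∧ tsupport f ⊆ Metric.ball (0 : ℂ) 1

/-- `T(σ ·) : L^2(𝔻, σ) → L^2(𝔻, w)` is bounded. -/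
def IsBddTwoWeight (T : (ℂ → ℂ) → ℂ → ℂ) (w σ : ℂ → ℝ) : Prop :=
  ∃ C : ℝ≥0, ∀ f : ℂ → ℂ, IsTest f →
    normL2 w (T (fun ζ => (σ ζ : ℂ) * f ζ)) ≤ C * normL2 σ f

/-- There are weights `w, σ` on the disc for which `P_B(σ ·) : L^2(σ) → L^2(w)` is bounded while
`P_B^+(σ ·) : L^2(σ) → L^2(w)` is not. -/
theorem result : ∃ w σ : ℂ → ℝ, IsWeight w ∧ IsWeight σ ∧
    IsBddTwoWeight bergman w σ ∧ ¬ IsBddTwoWeight maximalBergman w σ := by
  refine ⟨H26.BG.w, H26.BG.sg, ⟨?_, ?_⟩, ⟨?_, ?_⟩, ?_, ?_⟩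
  · intro z hz
    rw [mem_ball_zero_iff] at hz
    unfold H26.BG.w
    nlinarith [norm_nonneg z]
  · apply ContinuousOn.locallyIntegrableOn _ Metric.isOpen_ball.measurableSet
    apply Continuous.continuousOn
    unfold H26.BG.w
    fun_prop
  · intro z hz
    rw [mem_ball_zero_iff] at hz
    apply H26.BG.S_pos _ (by positivity)
    nlinarith [norm_nonneg z]
  · apply ContinuousOn.locallyIntegrableOn _ Metric.isOpen_ball.measurableSet
    have h1 : ContinuousOn H26.BG.S (Set.Ico 0 1) := by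
      intro u hu
      obtain ⟨b, hb1, hb2⟩ := exists_between hu.2
      have h2 := (H26.BG.S_cont b hb2) u ⟨hu.1, hb1.le⟩
      have h3 : Set.Icc (0 : ℝ) b ∈ 𝓝[Set.Ico 0 1] u := by
        have h4 : Set.Ico (0 : ℝ) 1 ∩ Set.Iio b ∈ 𝓝[Set.Ico 0 1] u :=
          inter_mem self_mem_nhdsWithin (mem_nhdsWithin_of_mem_nhds (Iio_mem_nhds hb1))
        exact mem_of_superset h4 (fun x hx => ⟨hx.1.1, hx.2.le⟩)
      exact h2.mono_of_mem_nhdsWithin h3
    have h2 : ContinuousOn (fun z : ℂ => ‖z‖ ^ 2) (Metric.ball (0 : ℂ) 1) := by fun_prop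
    refine h1.comp h2 ?_
    intro z hz
    rw [mem_ball_zero_iff] at hz
    exact ⟨by positivity, by nlinarith [norm_nonneg z]⟩
  · refine ⟨1, fun f hf => ?_⟩
    obtain ⟨hm, ⟨M, hM⟩, hc, hsub⟩ := hf
    obtain ⟨R, hR0, hR1, hR⟩ : ∃ R : ℝ, 0 ≤ R ∧ R < 1 ∧ ∀ z, f z ≠ 0 → ‖z‖ ≤ R := by
      rcases (tsupport f).eq_empty_or_nonempty with he | hne
      · refine ⟨0, le_rfl, one_pos, fun z hz => ?_⟩
        have : z ∈ tsupport f := subset_tsupport f hz
        rw [he] at this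
        exact absurd this (Set.notMem_empty z)
      · obtain ⟨x, hx, hmax⟩ := hc.isCompact.exists_isMaxOn hne (continuous_norm.continuousOn)
        refine ⟨‖x‖, norm_nonneg _, ?_, fun z hz => ?_⟩
        · have := hsub hx
          rwa [mem_ball_zero_iff] at this
        · exact hmax (subset_tsupport f hz)
    have key := H26.BG.PB_bound R hR0 hR1 f hm M hM hR
    rw [ENNReal.coe_one, one_mul]
    unfold normL2
    exact ENNReal.rpow_le_rpow key (by norm_num)
  · rintro ⟨C, hC⟩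
    obtain ⟨R, hR0, hR1, hfail⟩ := H26.BG.fails (C ^ 2)
    apply hfail
    have htest : IsTest (H26.BG.fR R) := by
      have hsupp : tsupport (H26.BG.fR R) ⊆ Metric.closedBall (0 : ℂ) R := by
        apply closure_minimal _ Metric.isClosed_closedBall
        intro z hz
        by_contra hcon
        apply hz
        unfold H26.BG.fR
        exact Set.indicator_of_notMem hcon _
      refine ⟨?_, ⟨1, fun z => ?_⟩, ?_, ?_⟩
      · unfold H26.BG.fR
        exact measurable_const.indicator Metric.isClosed_closedBall.measurableSet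
      · unfold H26.BG.fR
        classical
        rw [Set.indicator_apply]
        split_ifs <;> simp
      · exact IsCompact.of_isClosed_subset (isCompact_closedBall 0 R) (isClosed_tsupport _) hsupp
      · exact hsupp.trans (Metric.closedBall_subset_ball hR1)
    have h := hC _ htest
    unfold normL2 at h
    have h2 := ENNReal.rpow_le_rpow h (show (0 : ℝ) ≤ 2 by norm_num)
    rw [ENNReal.mul_rpow_of_nonneg _ _ (by norm_num : (0 : ℝ) ≤ 2), ← ENNReal.rpow_mul, ← ENNReal.rpow_mul] at h2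
    norm_num at h2
    rw [ENNReal.coe_pow]
    exact h2

end Pool.Agent.Results.MP_5b3867_an.TwoWeight
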